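import Pool.Agent.Helper67.NO.St5

/-!
# Project NO (MP_26be5b_ag): module DGR (the Gram determinant of a quaternionic form)
-/

set_option autoImplicit false

namespace Pool.Agent.Helper52.NO

open Matrix
open Pool.Agent.Helper67.NO
open scoped Matrix.Norms.Frobenius ContDiff Topology ComplexOrder

universe u

section

variable {V : Type u} [AddCommGroup V] [Module ℂ V]

theorem rsum {F : V → V → ℂ} (ha : ∀ X Y Z, F X (Y + Z) = F X Y + F X Z)
    (hs : ∀ (c : ℂ) X Y, F X (c • Y) = c * F X Y) {k : ℕ} (c : Fin k → ℂ) (Y : Fin k → V) (X : V) :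
    F X (∑ j, c j • Y j) = ∑ j, c j * F X (Y j) := by
  let L : V →ₗ[ℂ] ℂ :=
    { toFun := F X
      map_add' := fun a b => ha X a b
      map_smul' := fun c a => hs c X a }
  have h : L (∑ j, c j • Y j) = ∑ j, c j * L (Y j) := by
    rw [map_sum]
    exact Finset.sum_congr rfl fun j _ => by rw [map_smul, smul_eq_mul]
  exact h

end

theorem pDGR : StDGR.{u} := by
  intro V _ _ _ B om K Ba Bs Bsymm Bnn oa os oanti hK hKo quat
  have Br : ∀ {k : ℕ} (c : Fin k → ℂ) (Y : Fin k → V) (X : V),
      B X (∑ j, c j • Y j) = ∑ j, c j * B X (Y j) := fun c Y X => rsum Ba Bs c Y X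
  have Bl : ∀ {k : ℕ} (c : Fin k → ℂ) (Y : Fin k → V) (X : V),
      B (∑ j, c j • Y j) X = ∑ j, star (c j) * B (Y j) X := by
    intro k c Y X
    rw [Bsymm X, Br, star_sum]
    refine Finset.sum_congr rfl fun j _ => ?_
    rw [star_mul', ← Bsymm X (Y j)]
  have Or : ∀ {k : ℕ} (c : Fin k → ℂ) (Y : Fin k → V) (X : V),
      om X (∑ j, c j • Y j) = ∑ j, c j * om X (Y j) := fun c Y X => rsum oa os c Y X
  have Ol : ∀ {k : ℕ} (c : Fin k → ℂ) (Y : Fin k → V) (X : V),
      om (∑ j, c j • Y j) X = ∑ j, c j * om (Y j) X := by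
    intro k c Y X
    rw [oanti X, Or, ← Finset.sum_neg_distrib]
    refine Finset.sum_congr rfl fun j _ => ?_
    rw [oanti X (Y j)]; ring
  have hKB : ∀ X ∈ K, ∀ Y, B X Y = 0 := by
    intro X hX Y
    obtain ⟨X', hX'⟩ := quat X
    have h1 : X' ∈ K := (hK X').2 (by rw [(hX' X').1, hKo X hX])
    have h2 := hKo X' h1 Y
    rw [(hX' Y).2] at h2
    simpa using h2
  have hKB' : ∀ X ∈ K, ∀ Y, B Y X = 0 := by
    intro X hX Y
    rw [Bsymm X Y, hKB X hX, star_zero]
  have hKo' : ∀ X ∈ K, ∀ Y, om Y X = 0 := by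
    intro X hX Y
    rw [oanti X Y, hKo X hX, neg_zero]
  have hpsd : ∀ (k : ℕ) (X : Fin k → V),
      (Matrix.of fun i j : Fin k => B (X i) (X j)).PosSemidef := by
    intro k X
    refine PosSemidef.of_dotProduct_mulVec_nonneg ?_ ?_
    · ext i j
      rw [conjTranspose_apply, of_apply, of_apply, ← Bsymm]
    · intro x
      have h : star x ⬝ᵥ ((Matrix.of fun i j : Fin k => B (X i) (X j)) *ᵥ x)
          = B (∑ j, x j • X j) (∑ j, x j • X j) := by
        rw [Bl]
        simp only [dotProduct, mulVec, of_apply, Pi.star_apply]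
        refine Finset.sum_congr rfl fun i _ => ?_
        rw [Br]
        congr 1
        exact Finset.sum_congr rfl fun j _ => mul_comm _ _
      rw [h, Complex.nonneg_iff]
      refine ⟨Bnn _, ?_⟩
      have := Bsymm (∑ j, x j • X j) (∑ j, x j • X j)
      have h2 := congrArg Complex.im this
      rw [Complex.star_def, Complex.conj_im] at h2
      linarith
  refine ⟨hpsd, ?_⟩
  intro k X hk
  set Gm : Matrix (Fin k) (Fin k) ℂ := Matrix.of fun i j : Fin k => B (X i) (X j) with hGm
  set Om : Matrix (Fin k) (Fin k) ℂ := Matrix.of fun i j : Fin k => om (X i) (X j) with hOm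
  have hdet : ‖Om.det‖ = ‖Gm.det‖ := by
    by_cases hli : LinearIndependent ℂ (fun i => K.mkQ (X i))
    · have hspan : Submodule.span ℂ (Set.range fun i => K.mkQ (X i)) = ⊤ :=
        hli.span_eq_top_of_card_eq_finrank' (by rw [Fintype.card_fin]; exact hk)
      choose X' hX' using fun i => quat (X i)
      have hc : ∀ i, ∃ c : Fin k → ℂ, ∑ l, c l • K.mkQ (X l) = K.mkQ (X' i) := by
        intro i
        have : K.mkQ (X' i) ∈ Submodule.span ℂ (Set.range fun i => K.mkQ (X i)) := by
          rw [hspan]; trivial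
        exact (Submodule.mem_span_range_iff_exists_fun ℂ).1 this
      choose c hc using hc
      have hd : ∀ i, X' i - ∑ l, c i l • X l ∈ K := by
        intro i
        rw [← Submodule.Quotient.mk_eq_zero K, ← Submodule.mkQ_apply, map_sub, ← hc i, map_sum]
        simp
      have hB : ∀ i j, B (X' i) (X j) = ∑ l, star (c i l) * B (X l) (X j) := by
        intro i j
        rw [← Bl]
        have h1 := hKB' _ (hd i) (X j)
        have h2 : B (X j) (X' i) = B (X j) (∑ l, c i l • X l) := by
          have h3 : X' i = (X' i - ∑ l, c i l • X l) + ∑ l, c i l • X l := by abel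
          rw [h3, Ba, h1, zero_add]
        rw [Bsymm (X j), h2, ← Bsymm]
      have hO : ∀ i j, om (X' i) (X j) = ∑ l, c i l * om (X l) (X j) := by
        intro i j
        rw [← Ol]
        have h1 := hKo' _ (hd i) (X j)
        have h2 : om (X j) (X' i) = om (X j) (∑ l, c i l • X l) := by
          have h3 : X' i = (X' i - ∑ l, c i l • X l) + ∑ l, c i l • X l := by abel
          rw [h3, oa, h1, zero_add]
        rw [oanti (X j), h2, ← oanti]
      let C : Matrix (Fin k) (Fin k) ℂ := Matrix.of fun i l => c i l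
      have e1 : Om = (C.map star) * Gm := by
        ext i j
        rw [Matrix.mul_apply, hOm, of_apply, ← (hX' i (X j)).1, hB]
        rfl
      have e2 : -Gm = C * Om := by
        ext i j
        rw [Matrix.mul_apply, Matrix.neg_apply, hGm, of_apply, ← (hX' i (X j)).2, hO]
        rfl
      have f0 : (C.map star).det = star C.det := by
        have : C.map star = (Cᴴ)ᵀ := by
          ext i j; rfl
        rw [this, det_transpose, det_conjTranspose]
      have f1 : ‖Om.det‖ = ‖C.det‖ * ‖Gm.det‖ := by
        rw [e1, det_mul, norm_mul, f0, norm_star]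
      have f2 : ‖Gm.det‖ = ‖C.det‖ * ‖Om.det‖ := by
        have := congrArg (fun M : Matrix (Fin k) (Fin k) ℂ => ‖M.det‖) e2
        simp only [det_neg, det_mul, norm_mul, norm_pow, norm_neg, norm_one, one_pow,
          one_mul] at this
        exact this
      have g1 : 0 ≤ ‖C.det‖ := norm_nonneg _
      have g2 : 0 ≤ ‖Gm.det‖ := norm_nonneg _
      by_cases hz : ‖Gm.det‖ = 0
      · rw [f1, hz, mul_zero]
      · have h3 : ‖C.det‖ * ‖C.det‖ = 1 := by
          have : ‖C.det‖ * ‖C.det‖ * ‖Gm.det‖ = 1 * ‖Gm.det‖ := by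
            rw [one_mul, mul_assoc, ← f1, ← f2]
          exact mul_right_cancel₀ hz this
        have h4 : ‖C.det‖ = 1 := by nlinarith
        rw [f1, h4, one_mul]
    · rw [Fintype.linearIndependent_iff] at hli
      push Not at hli
      obtain ⟨g, hg, i₀, hi₀⟩ := hli
      have hgne : g ≠ 0 := fun h => hi₀ (by rw [h]; rfl)
      have hmem : ∑ i, g i • X i ∈ K := by
        rw [← Submodule.Quotient.mk_eq_zero K, ← Submodule.mkQ_apply, map_sum, ← hg]
        simp
      have z1 : Gm.det = 0 := by
        rw [← Matrix.exists_mulVec_eq_zero_iff]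
        refine ⟨g, hgne, ?_⟩
        ext i
        have := hKB' _ hmem (X i)
        rw [Br] at this
        simp only [mulVec, dotProduct, hGm, of_apply, Pi.zero_apply]
        rw [← this]
        exact Finset.sum_congr rfl fun j _ => mul_comm _ _
      have z2 : Om.det = 0 := by
        rw [← Matrix.exists_mulVec_eq_zero_iff]
        refine ⟨g, hgne, ?_⟩
        ext i
        have := hKo' _ hmem (X i)
        rw [Or] at this
        simp only [mulVec, dotProduct, hOm, of_apply, Pi.zero_apply]
        rw [← this]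
        exact Finset.sum_congr rfl fun j _ => mul_comm _ _
      rw [z1, z2]
  rw [hdet]
  exact Complex.eq_coe_norm_of_nonneg (hpsd k X).det_nonneg

end Pool.Agent.Helper52.NO
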