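import Pool.Agent.Helper67.NO.St2

/-!
# Project NO (MP_26be5b_ag): module EXA (exactness)
-/

set_option autoImplicit false

namespace Pool.Agent.Helper52.NO

open Matrix
open Pool.Agent.Helper67.NO
open scoped Matrix.Norms.Frobenius ContDiff Topology

section

variable {ι κ : Type} [Fintype ι] [DecidableEq ι] [Fintype κ] [DecidableEq κ]

/-- degree of a matrix -/
def Dg (lev : κ → ℕ) (d : ℤ) (x : Matrix (ι ⊕ κ) (ι ⊕ κ) ℂ) : Prop :=
  ∀ p q, x p q ≠ 0 → ((lv lev p : ℕ) : ℤ) = (lv lev q : ℕ) + d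

/-- projection to the level `m` -/
noncomputable def Em (lev : κ → ℕ) (m : ℤ) : Matrix (ι ⊕ κ) (ι ⊕ κ) ℂ :=
  diagonal (fun p => if ((lv lev p : ℕ) : ℤ) = m then 1 else 0)

theorem dg_low {lev : κ → ℕ} {x : Matrix (ι ⊕ κ) (ι ⊕ κ) ℂ} (h : Low lev x) : Dg lev (-1) x := by
  intro p q hpq
  have := h p q hpq
  omega

theorem dg_rai {lev : κ → ℕ} {x : Matrix (ι ⊕ κ) (ι ⊕ κ) ℂ} (h : Rai lev x) : Dg lev 1 x := by
  intro p q hpq
  have := h p q hpq
  omega

theorem dg_add {lev : κ → ℕ} {d : ℤ} {x y : Matrix (ι ⊕ κ) (ι ⊕ κ) ℂ} (hx : Dg lev d x)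
    (hy : Dg lev d y) : Dg lev d (x + y) := by
  intro p q hpq
  by_cases h : x p q = 0
  · by_cases h' : y p q = 0
    · exact absurd (by simp [Matrix.add_apply, h, h']) hpq
    · exact hy p q h'
  · exact hx p q h

theorem dg_sub {lev : κ → ℕ} {d : ℤ} {x y : Matrix (ι ⊕ κ) (ι ⊕ κ) ℂ} (hx : Dg lev d x)
    (hy : Dg lev d y) : Dg lev d (x - y) := by
  intro p q hpq
  by_cases h : x p q = 0
  · by_cases h' : y p q = 0
    · exact absurd (by simp [Matrix.sub_apply, h, h']) hpq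
    · exact hy p q h'
  · exact hx p q h

theorem dg_mul {lev : κ → ℕ} {d e : ℤ} {x y : Matrix (ι ⊕ κ) (ι ⊕ κ) ℂ} (hx : Dg lev d x)
    (hy : Dg lev e y) : Dg lev (d + e) (x * y) := by
  intro p q hpq
  rw [Matrix.mul_apply] at hpq
  obtain ⟨r, -, hr⟩ := Finset.exists_ne_zero_of_sum_ne_zero hpq
  have h1 := hx p r (left_ne_zero_of_mul hr)
  have h2 := hy r q (right_ne_zero_of_mul hr)
  omega

theorem dg_Em {lev : κ → ℕ} (m : ℤ) : Dg lev 0 (Em (ι := ι) lev m) := by
  intro p q hpq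
  unfold Em at hpq
  by_cases h : p = q
  · subst h; omega
  · exact absurd (diagonal_apply_ne _ h) hpq

theorem dg_one {lev : κ → ℕ} : Dg lev 0 (1 : Matrix (ι ⊕ κ) (ι ⊕ κ) ℂ) := by
  intro p q hpq
  by_cases h : p = q
  · subst h; omega
  · exact absurd (one_apply_ne h) hpq

theorem dg_zero {lev : κ → ℕ} {d : ℤ} : Dg lev d (0 : Matrix (ι ⊕ κ) (ι ⊕ κ) ℂ) := by
  intro p q hpq
  exact absurd rfl hpq

theorem Em_comm {lev : κ → ℕ} {d : ℤ} {x : Matrix (ι ⊕ κ) (ι ⊕ κ) ℂ} (hx : Dg lev d x) (m : ℤ) :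
    Em lev (m + d) * x = x * Em lev m := by
  ext p q
  unfold Em
  rw [diagonal_mul, mul_diagonal]
  by_cases h : x p q = 0
  · simp [h]
  · have h1 := hx p q h
    by_cases h2 : ((lv lev q : ℕ) : ℤ) = m
    · rw [if_pos h2, if_pos (by omega)]; ring
    · rw [if_neg h2, if_neg (by omega)]; ring

theorem Em_mul_ne {lev : κ → ℕ} {m m' : ℤ} (h : m ≠ m') :
    Em (ι := ι) lev m * Em lev m' = 0 := by
  unfold Em
  rw [diagonal_mul_diagonal]
  ext p q
  by_cases hpq : p = q
  · subst hpq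
    rw [diagonal_apply_eq]
    by_cases h2 : ((lv lev p : ℕ) : ℤ) = m
    · rw [if_neg (by omega : ¬ ((lv lev p : ℕ) : ℤ) = m')]; simp
    · rw [if_neg h2]; simp
  · rw [diagonal_apply_ne _ hpq]; rfl

theorem Em_neg {lev : κ → ℕ} {m : ℤ} (h : m < 0) : Em (ι := ι) lev m = 0 := by
  unfold Em
  ext p q
  by_cases hpq : p = q
  · subst hpq
    rw [diagonal_apply_eq, if_neg (by omega)]; rfl
  · rw [diagonal_apply_ne _ hpq]; rfl

theorem mul_Em_apply {lev : κ → ℕ} (x : Matrix (ι ⊕ κ) (ι ⊕ κ) ℂ) (p q : ι ⊕ κ) :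
    (x * Em lev ((lv lev q : ℕ) : ℤ) : Matrix (ι ⊕ κ) (ι ⊕ κ) ℂ) p q = x p q := by
  unfold Em
  rw [mul_diagonal, if_pos rfl, mul_one]

theorem bd_Em {lev : κ → ℕ} (C : Matrix ι ι ℂ) {m : ℤ} (hm : 1 ≤ m) :
    bd C (0 : Matrix κ κ ℂ) * Em lev m = 0 := by
  ext p q
  unfold Em bd
  rw [mul_diagonal]
  rcases q with q | q
  · rw [if_neg (by simp only [lv]; omega)]; simp
  · rcases p with p | p <;> simp

/-- the level part of degree `d` -/
def prt (lev : κ → ℕ) (d : ℤ) (x : Matrix (ι ⊕ κ) (ι ⊕ κ) ℂ) : Matrix (ι ⊕ κ) (ι ⊕ κ) ℂ :=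
  fun p q => if ((lv lev p : ℕ) : ℤ) = (lv lev q : ℕ) + d then x p q else 0

theorem dg_prt {lev : κ → ℕ} {d : ℤ} (x : Matrix (ι ⊕ κ) (ι ⊕ κ) ℂ) : Dg lev d (prt lev d x) := by
  intro p q h
  by_contra h2
  exact h (if_neg h2)

theorem prt_mul {lev : κ → ℕ} {d e : ℤ} (x : Matrix (ι ⊕ κ) (ι ⊕ κ) ℂ)
    {y : Matrix (ι ⊕ κ) (ι ⊕ κ) ℂ} (hy : Dg lev e y) :
    prt lev d x * y = prt lev (d + e) (x * y) := by
  ext p q
  rw [Matrix.mul_apply]
  show _ = if ((lv lev p : ℕ) : ℤ) = (lv lev q : ℕ) + (d + e) then (x * y) p q else 0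
  rw [Matrix.mul_apply]
  split_ifs with h
  · refine Finset.sum_congr rfl fun r _ => ?_
    by_cases h2 : y r q = 0
    · rw [h2, mul_zero, mul_zero]
    · have h3 := hy r q h2
      have : prt lev d x p r = x p r := if_pos (by omega)
      rw [this]
  · refine Finset.sum_eq_zero fun r _ => ?_
    by_cases h2 : y r q = 0
    · rw [h2, mul_zero]
    · have h3 := hy r q h2
      have : prt lev d x p r = 0 := if_neg (by omega)
      rw [this, zero_mul]

theorem mul_prt {lev : κ → ℕ} {d e : ℤ} {x : Matrix (ι ⊕ κ) (ι ⊕ κ) ℂ} (hx : Dg lev e x)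
    (y : Matrix (ι ⊕ κ) (ι ⊕ κ) ℂ) :
    x * prt lev d y = prt lev (e + d) (x * y) := by
  ext p q
  rw [Matrix.mul_apply]
  show _ = if ((lv lev p : ℕ) : ℤ) = (lv lev q : ℕ) + (e + d) then (x * y) p q else 0
  rw [Matrix.mul_apply]
  split_ifs with h
  · refine Finset.sum_congr rfl fun r _ => ?_
    by_cases h2 : x p r = 0
    · rw [h2, zero_mul, zero_mul]
    · have h3 := hx p r h2
      have : prt lev d y r q = y r q := if_pos (by omega)
      rw [this]
  · refine Finset.sum_eq_zero fun r _ => ?_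
    by_cases h2 : x p r = 0
    · rw [h2, zero_mul]
    · have h3 := hx p r h2
      have : prt lev d y r q = 0 := if_neg (by omega)
      rw [this, mul_zero]

theorem prt_self {lev : κ → ℕ} {d : ℤ} {x : Matrix (ι ⊕ κ) (ι ⊕ κ) ℂ} (hx : Dg lev d x) :
    prt lev d x = x := by
  ext p q
  show (if ((lv lev p : ℕ) : ℤ) = (lv lev q : ℕ) + d then x p q else 0) = x p q
  split_ifs with h
  · rfl
  · by_contra h2
    exact h (hx p q (fun h3 => h2 h3.symm))

theorem one_sub_E0 (lev : κ → ℕ) (p q : ι ⊕ κ) :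
    (1 - Em lev 0 : Matrix (ι ⊕ κ) (ι ⊕ κ) ℂ) p q
      = if p = q ∧ ∃ r, p = .inr r then 1 else 0 := by
  rw [Matrix.sub_apply]
  unfold Em
  by_cases hpq : p = q
  · subst hpq
    rw [one_apply_eq, diagonal_apply_eq]
    rcases p with p | p
    · rw [if_pos (by simp [lv]), if_neg]; · ring
      rintro ⟨-, r, hr⟩
      simp at hr
    · rw [if_neg (by simp only [lv]; omega), if_pos ⟨rfl, p, rfl⟩]; ring
  · rw [one_apply_ne hpq, diagonal_apply_ne _ hpq, if_neg (fun h => hpq h.1)]; ring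

theorem exists_left {lev : κ → ℕ} {a : Matrix (ι ⊕ κ) (ι ⊕ κ) ℂ} (ha : Dg lev (-1) a)
    (hs : ∀ w : ι ⊕ κ → ℂ, (∀ p : ι, w (.inl p) = 0) → a *ᵥ w = 0 → w = 0) :
    ∃ a' : Matrix (ι ⊕ κ) (ι ⊕ κ) ℂ, Dg lev 1 a' ∧ a' * a = 1 - Em lev 0 := by
  classical
  set a1 : Matrix (ι ⊕ κ) κ ℂ := a.submatrix id Sum.inr with ha1
  have hker : LinearMap.ker (a1.mulVecLin) = ⊥ := by
    rw [LinearMap.ker_eq_bot']
    intro y hy
    have h1 := hs (Sum.elim 0 y) (fun p => rfl) (by
      rw [← hy]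
      ext p
      rw [mulVecLin_apply]
      simp [mulVec, dotProduct, ha1, Fintype.sum_sum_type])
    ext q
    exact congrFun h1 (Sum.inr q)
  obtain ⟨g, hg⟩ := LinearMap.exists_leftInverse_of_injective _ hker
  have hL : LinearMap.toMatrix' g * a1 = 1 := by
    have h1 : LinearMap.toMatrix' (g ∘ₗ a1.mulVecLin) = LinearMap.toMatrix' g * a1 := by
      rw [LinearMap.toMatrix'_comp, ← Matrix.toLin'_apply', LinearMap.toMatrix'_toLin']
    rw [← h1, hg, LinearMap.toMatrix'_id]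
  have haE : ∀ p q, a p (.inl q) = 0 := by
    intro p q
    by_contra h
    have := ha p _ h
    simp only [lv] at this
    omega
  let a0 : Matrix (ι ⊕ κ) (ι ⊕ κ) ℂ := fun p q => Sum.elim (fun _ => 0)
    (fun r => LinearMap.toMatrix' g r q) p
  have h0 : a0 * a = 1 - Em lev 0 := by
    ext p q
    rw [one_sub_E0, Matrix.mul_apply]
    rcases p with p | p
    · rw [if_neg (by rintro ⟨-, r, hr⟩; simp at hr)]
      exact Finset.sum_eq_zero fun r _ => by simp [a0]
    · rcases q with q | q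
      · rw [if_neg (by rintro ⟨h, -⟩; simp at h)]
        exact Finset.sum_eq_zero fun r _ => by rw [haE, mul_zero]
      · have h1 := congrFun (congrFun hL p) q
        rw [Matrix.mul_apply] at h1
        have h2 : ∑ j, a0 (Sum.inr p) j * a j (Sum.inr q)
            = ∑ j, LinearMap.toMatrix' g p j * a1 j q := rfl
        rw [h2, h1, Matrix.one_apply]
        by_cases hpq : p = q
        · subst hpq
          rw [if_pos rfl, if_pos ⟨rfl, p, rfl⟩]
        · rw [if_neg hpq, if_neg]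
          rintro ⟨h, -⟩
          exact hpq (Sum.inr_injective h)
  refine ⟨prt lev 1 a0, dg_prt _, ?_⟩
  rw [prt_mul _ ha, h0]
  exact prt_self (dg_sub dg_one (dg_Em 0))

theorem exists_right {lev : κ → ℕ} {b : Matrix (ι ⊕ κ) (ι ⊕ κ) ℂ} (hb : Dg lev 1 b)
    (hs : ∀ w : ι ⊕ κ → ℂ, (∀ p : ι, w (.inl p) = 0) → ∃ v, b *ᵥ v = w) :
    ∃ b' : Matrix (ι ⊕ κ) (ι ⊕ κ) ℂ, Dg lev (-1) b' ∧ b * b' = 1 - Em lev 0 := by
  classical
  have h1 : ∀ q : κ, ∃ v, b *ᵥ v = Pi.single (Sum.inr q) 1 := fun q =>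
    hs _ (fun p => by simp)
  choose v hv using h1
  let b0 : Matrix (ι ⊕ κ) (ι ⊕ κ) ℂ := fun p q => Sum.elim (fun _ => 0) (fun r => v r p) q
  have h0 : b * b0 = 1 - Em lev 0 := by
    ext p q
    rw [one_sub_E0, Matrix.mul_apply]
    rcases q with q | q
    · rw [if_neg (by rintro ⟨h, r, hr⟩; rw [hr] at h; simp at h)]
      exact Finset.sum_eq_zero fun r _ => by simp [b0]
    · have h2 := congrFun (hv q) p
      have h3 : ∑ j, b p j * b0 j (Sum.inr q) = (b *ᵥ v q) p := rfl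
      rw [h3, h2]
      by_cases hpq : p = Sum.inr q
      · subst hpq
        rw [Pi.single_eq_same, if_pos ⟨rfl, q, rfl⟩]
      · rw [Pi.single_eq_of_ne hpq, if_neg (fun h => hpq h.1)]
  refine ⟨prt lev (-1) b0, dg_prt _, ?_⟩
  rw [mul_prt hb, h0]
  exact prt_self (dg_sub dg_one (dg_Em 0))

/-- one step -/
theorem step {lev : κ → ℕ} {A : Matrix ι ι ℂ} {a b v w a' b' X : Matrix (ι ⊕ κ) (ι ⊕ κ) ℂ}
    (ha : Dg lev (-1) a) (hb : Dg lev 1 b) (hv : Dg lev (-1) v) (hw : Dg lev 1 w)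
    (ha' : Dg lev 1 a') (hb' : Dg lev (-1) b') (hX : Dg lev 0 X)
    (ea : a' * a = 1 - Em lev 0) (eb : b * b' = 1 - Em lev 0)
    (hA : br a b = bd A 0) {C : Matrix ι ι ℂ} (hC : br v b + br a w = bd C 0)
    (k : ℤ) (hk : 0 ≤ k)
    (h1 : ∀ m, k + 2 ≤ m → (br X a - v) * Em lev m = 0)
    (h2 : ∀ m, k + 1 ≤ m → (br X b - w) * Em lev m = 0) :
    ∃ Y : Matrix (ι ⊕ κ) (ι ⊕ κ) ℂ, Dg lev 0 Y ∧
      (∀ m, k + 1 ≤ m → (br Y a - v) * Em lev m = 0) ∧
      (∀ m, k ≤ m → (br Y b - w) * Em lev m = 0) := by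
  set N : Matrix (ι ⊕ κ) (ι ⊕ κ) ℂ :=
    (v + a * X) * a' + b' * (X * b - w) * (1 - a * a') with hN
  have hNd : Dg lev 0 N := by
    have t1 : Dg lev (-1) (v + a * X) := dg_add hv (by simpa using dg_mul ha hX)
    have t2 : Dg lev 1 (X * b - w) := dg_sub (by simpa using dg_mul hX hb) hw
    have t3 : Dg lev 0 (1 - a * a') := dg_sub dg_one (by simpa using dg_mul ha ha')
    have t4 := dg_mul (dg_mul hb' t2) t3
    have t5 := dg_mul t1 ha'
    exact dg_add (by simpa using t5) (by simpa using t4)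
  set Y : Matrix (ι ⊕ κ) (ι ⊕ κ) ℂ := N * Em lev k + X * (1 - Em lev k) with hY
  have hYd : Dg lev 0 Y := by
    refine dg_add ?_ ?_
    · simpa using dg_mul hNd (dg_Em (ι := ι) k)
    · simpa using dg_mul hX (dg_sub (dg_one (ι := ι)) (dg_Em (ι := ι) (lev := lev) k))
  have hEE : Em (ι := ι) lev k * Em lev k = Em lev k := by
    unfold Em
    rw [diagonal_mul_diagonal]
    congr 1
    ext p
    split_ifs <;> simp
  -- Y on the levels
  have hYk : Y * Em lev k = N * Em lev k := by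
    rw [hY, add_mul, mul_assoc, hEE, mul_assoc, sub_mul, hEE, one_mul, sub_self, mul_zero,
      add_zero]
  have hYm : ∀ m, m ≠ k → Y * Em lev m = X * Em lev m := by
    intro m hm
    rw [hY, add_mul, mul_assoc, Em_mul_ne (Ne.symm hm), mul_zero, zero_add, mul_assoc, sub_mul,
      Em_mul_ne (Ne.symm hm), one_mul, sub_zero]
  have ca : ∀ (x : Matrix (ι ⊕ κ) (ι ⊕ κ) ℂ), Dg lev (-1) x → ∀ m : ℤ,
      x * Em lev m = Em lev (m - 1) * x := fun x hx m => by
    rw [← Em_comm hx m]; rfl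
  have cb : ∀ (x : Matrix (ι ⊕ κ) (ι ⊕ κ) ℂ), Dg lev 1 x → ∀ m : ℤ,
      x * Em lev m = Em lev (m + 1) * x := fun x hx m => by
    rw [← Em_comm hx m]
  have c0 : ∀ (x : Matrix (ι ⊕ κ) (ι ⊕ κ) ℂ), Dg lev 0 x → ∀ m : ℤ,
      x * Em lev m = Em lev m * x := fun x hx m => by
    rw [← Em_comm hx m, add_zero]
  have haE0 : a * Em lev 0 = 0 := by
    rw [ca a ha 0, Em_neg (by omega), zero_mul]
  have hE0b : Em lev 0 * b = 0 := by
    have := cb b hb (-1)
    rw [Em_neg (by omega), mul_zero] at this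
    simpa using this.symm
  have hE0w : Em lev 0 * w = 0 := by
    have := cb w hw (-1)
    rw [Em_neg (by omega), mul_zero] at this
    simpa using this.symm
  have hE0X : Em lev 0 * X = X * Em lev 0 := (c0 X hX 0).symm
  have hNa : N * a = (v + a * X) * (1 - Em lev 0) := by
    have : N * a = (v + a * X) * (a' * a) + b' * (X * b - w) * (a - a * (a' * a)) := by
      rw [hN]; noncomm_ring
    rw [this, ea]
    have h3 : a - a * (1 - Em lev 0) = 0 := by
      rw [mul_sub, mul_one, haE0, sub_zero, sub_self]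
    rw [h3, mul_zero, add_zero]
  have hE0s : ∀ m : ℤ, 1 ≤ m → (1 - Em (ι := ι) lev 0) * Em lev m = Em lev m := by
    intro m hm
    rw [sub_mul, one_mul, Em_mul_ne (by omega), sub_zero]
  refine ⟨Y, hYd, ?_, ?_⟩
  · intro m hm
    have e1 : (br Y a - v) * Em lev m
        = (Y * Em lev (m - 1)) * a - a * (Y * Em lev m) - v * Em lev m := by
      unfold br
      rw [sub_mul, sub_mul, mul_assoc Y a, ca a ha m]
      noncomm_ring
    rcases eq_or_lt_of_le hm with hm | hm
    · -- m = k + 1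
      rw [e1, hYm m (by omega), show m - 1 = k by omega, hYk, mul_assoc N, show k = m - 1 by omega,
        ← ca a ha m, ← mul_assoc N, hNa, mul_assoc, hE0s m (by omega)]
      noncomm_ring
    · have e2 := h1 m (by omega)
      have e3 : (br X a - v) * Em lev m
          = (X * Em lev (m - 1)) * a - a * (X * Em lev m) - v * Em lev m := by
        unfold br
        rw [sub_mul, sub_mul, mul_assoc X a, ca a ha m]
        noncomm_ring
      rw [e1, hYm m (by omega), hYm (m - 1) (by omega), ← e3, e2]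
  · intro m hm
    have e1 : (br Y b - w) * Em lev m
        = (Y * Em lev (m + 1)) * b - b * (Y * Em lev m) - w * Em lev m := by
      unfold br
      rw [sub_mul, sub_mul, mul_assoc Y b, cb b hb m]
      noncomm_ring
    have e3 : (br X b - w) * Em lev m
        = (X * Em lev (m + 1)) * b - b * (X * Em lev m) - w * Em lev m := by
      unfold br
      rw [sub_mul, sub_mul, mul_assoc X b, cb b hb m]
      noncomm_ring
    rcases eq_or_lt_of_le hm with hm | hm
    · subst hm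
      rw [e1, hYm (k + 1) (by omega), hYk]
      have hbN : b * N = b * (v + a * X) * a' + (X * b - w) - (X * b - w) * a * a' := by
        have h3 : b * N = b * (v + a * X) * a' + (b * b') * (X * b - w) * (1 - a * a') := by
          rw [hN]; noncomm_ring
        have h4 : (1 - Em lev 0) * (X * b - w) = X * b - w := by
          rw [sub_mul, one_mul, mul_sub, ← mul_assoc, hE0X, mul_assoc, hE0b, hE0w]
          simp
        rw [h3, eb, h4]
        noncomm_ring
      have key : (b * (v + a * X) - (X * b - w) * a) * Em lev (k + 1) = 0 := by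
        have k1 : (br v b + br a w) * Em lev (k + 1) = 0 := by
          rw [hC]; exact bd_Em C (by omega)
        have k2 : (br X a - v) * Em lev (k + 2) * b = 0 := by
          rw [h1 _ (by omega), zero_mul]
        have k2' : (br X a - v) * b * Em lev (k + 1) = 0 := by
          rw [mul_assoc, cb b hb (k + 1), ← mul_assoc, show k + 1 + 1 = k + 2 by ring, k2]
        have k3 : a * ((br X b - w) * Em lev (k + 1)) = 0 := by
          rw [h2 _ (by omega), mul_zero]
        have k4 : br a b * Em lev (k + 1) = 0 := by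
          rw [hA]; exact bd_Em A (by omega)
        have k5 : br a b * X * Em lev (k + 1) = 0 := by
          rw [mul_assoc, c0 X hX, ← mul_assoc, k4, zero_mul]
        have k6 : X * (br a b * Em lev (k + 1)) = 0 := by
          rw [k4, mul_zero]
        have : (b * (v + a * X) - (X * b - w) * a) * Em lev (k + 1)
            = - (br v b + br a w) * Em lev (k + 1) - (br X a - v) * b * Em lev (k + 1)
              - a * ((br X b - w) * Em lev (k + 1)) + X * (br a b * Em lev (k + 1))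
              - br a b * X * Em lev (k + 1) := by
          unfold br
          noncomm_ring
        rw [this, neg_mul, k1, k2', k3, k5, k6]
        simp
      have h5 : b * (N * Em lev k) = (X * b - w) * Em lev k := by
        rw [← mul_assoc, hbN]
        have h6 : (b * (v + a * X) * a' + (X * b - w) - (X * b - w) * a * a') * Em lev k
            = (X * b - w) * Em lev k
              + (b * (v + a * X) - (X * b - w) * a) * (a' * Em lev k) := by
          noncomm_ring
        rw [h6, cb a' ha' k, ← mul_assoc _ (Em lev (k + 1)) a', key, zero_mul, add_zero]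
      rw [h5, mul_assoc X, ← cb b hb k]
      noncomm_ring
    · rw [e1, hYm m (by omega), hYm (m + 1) (by omega), ← e3, h2 m (by omega)]

end

theorem pEXA (h1 : StBL) (h2 : StBDA) : StEXA := by
  intro ι κ _ _ _ _ lev A a b v w hch hst hv hw hC
  obtain ⟨C, hC⟩ := hC
  obtain ⟨ha, hb, hA⟩ := hch
  have ha := dg_low ha
  have hb := dg_rai hb
  have hv := dg_low hv
  have hw := dg_rai hw
  obtain ⟨a', ha', ea⟩ := exists_left ha hst.1
  obtain ⟨b', hb', eb⟩ := exists_right hb hst.2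
  -- a bound for the levels
  obtain ⟨K, hK⟩ : ∃ K : ℕ, ∀ p : ι ⊕ κ, lv lev p < K := by
    refine ⟨(Finset.univ : Finset (ι ⊕ κ)).sup (lv lev) + 1, fun p => ?_⟩
    exact Nat.lt_succ_of_le (Finset.le_sup (f := lv lev) (Finset.mem_univ p))
  have hEm : ∀ m : ℤ, (K : ℤ) ≤ m → Em (ι := ι) lev m = 0 := by
    intro m hm
    unfold Em
    ext p q
    by_cases hpq : p = q
    · subst hpq
      have := hK p
      rw [diagonal_apply_eq, if_neg (by omega)]; rfl
    · rw [diagonal_apply_ne _ hpq]; rfl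
  have hind : ∀ j : ℕ, j ≤ K → ∃ X : Matrix (ι ⊕ κ) (ι ⊕ κ) ℂ, Dg lev 0 X ∧
      (∀ m, ((K - j : ℕ) : ℤ) + 1 ≤ m → (br X a - v) * Em lev m = 0) ∧
      (∀ m, ((K - j : ℕ) : ℤ) ≤ m → (br X b - w) * Em lev m = 0) := by
    intro j
    induction j with
    | zero =>
      intro _
      refine ⟨0, dg_zero, fun m hm => ?_, fun m hm => ?_⟩
      · rw [hEm m (by omega), mul_zero]
      · rw [hEm m (by omega), mul_zero]
    | succ j ih =>
      intro hj
      obtain ⟨X, hX, x1, x2⟩ := ih (by omega)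
      obtain ⟨Y, hY, y1, y2⟩ := step ha hb hv hw ha' hb' hX ea eb hA hC
        ((K - (j + 1) : ℕ) : ℤ) (by omega) (fun m hm => x1 m (by omega))
        (fun m hm => x2 m (by omega))
      exact ⟨Y, hY, y1, y2⟩
  obtain ⟨X, hX, x1, x2⟩ := hind K le_rfl
  rw [Nat.sub_self] at x1 x2
  have e1 : br X b = w := by
    rw [← sub_eq_zero]
    ext p q
    rw [← mul_Em_apply (lev := lev) (br X b - w) p q, x2 _ (Int.natCast_nonneg _)]
  have e2 : br X a = v := by
    rw [← sub_eq_zero]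
    have hd : Dg lev (-1) (br X a - v) := by
      unfold br
      exact dg_sub (dg_sub (by simpa using dg_mul hX ha) (by simpa using dg_mul ha hX)) hv
    ext p q
    by_cases hq : (1 : ℤ) ≤ ((lv lev q : ℕ) : ℤ)
    · rw [← mul_Em_apply (lev := lev) (br X a - v) p q, x1 _ (by simpa using hq)]
    · by_contra h
      have := hd p q h
      omega
  have hLev : Lev0 lev X := by
    intro p q hpq
    have := hX p q hpq
    omega
  obtain ⟨h, y, hy, hxy⟩ := ((h1 ι κ lev).1 X).1 hLev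
  exact ⟨h, y, hy, by rw [← hxy]; exact e2, by rw [← hxy]; exact e1⟩

end Pool.Agent.Helper52.NO
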